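import Pool.Agent.H28.GU.TargetsC

/-!
Row CL of the board `guc_modules` (project GU on `MP_c59857_nt`): cleaning in all variables.
-/

set_option autoImplicit false

open Finset

namespace Pool.Agent.H74.GU

open Pool.Agent.H28.GU

theorem freiAt_mono {q d : ℕ} {S S' : Finset (Fin d → ZMod q)}
    {τ : (Fin d → ZMod q) → ZMod q} {i : Fin d} (h : S' ⊆ S) (hS : FreiAt S τ i) :
    FreiAt S' τ i :=
  fun z x y hx hy hxy => hS z x y (fun j => h (hx j)) (fun j => h (hy j)) hxy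

theorem cl_aux (hCL1 : T_CL1) (d : ℕ) (j : ℕ) : j ≤ d → ∀ δ : ℝ, 0 < δ → ∃ c : ℝ, 0 < c ∧
    ∀ (q : ℕ) [Fact q.Prime] (u : ZMod q → ℝ)
    (S : Finset (Fin d → ZMod q)) (τ : (Fin d → ZMod q) → ZMod q),
    (∀ n, |u n| ≤ 1) → δ * (q : ℝ) ^ d ≤ (S.card : ℝ) →
    (∀ s ∈ S, δ * q ≤ ‖hat (Dl d s u) (τ s)‖) →
    ∃ S' : Finset (Fin d → ZMod q), S' ⊆ S ∧ c * (q : ℝ) ^ d ≤ (S'.card : ℝ) ∧
      ∀ i : Fin d, (i : ℕ) < j → FreiAt S' τ i := by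
  induction j with
  | zero =>
    intro _ δ hδ
    refine ⟨δ, hδ, ?_⟩
    intro q _ u S τ _ hS _
    exact ⟨S, Finset.Subset.refl _, hS, fun i hi => absurd hi (Nat.not_lt_zero _)⟩
  | succ j ih =>
    intro hj δ hδ
    obtain ⟨c, hc, hIH⟩ := ih (by omega) δ hδ
    obtain ⟨c', hc', hC⟩ := hCL1 (min δ c) (lt_min hδ hc)
    refine ⟨c', hc', ?_⟩
    intro q _ u S τ hu hS hs
    obtain ⟨S₁, h1, h2, h3⟩ := hIH q u S τ hu hS hs
    have hq : (0 : ℝ) ≤ (q : ℝ) := Nat.cast_nonneg q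
    have hqd : (0 : ℝ) ≤ (q : ℝ) ^ d := pow_nonneg hq d
    obtain ⟨S₂, h4, h5, h6⟩ := hC d q u S₁ τ ⟨j, by omega⟩ hu
      ((mul_le_mul_of_nonneg_right (min_le_right _ _) hqd).trans h2)
      (fun s hsS => (mul_le_mul_of_nonneg_right (min_le_left _ _) hq).trans (hs s (h1 hsS)))
    refine ⟨S₂, h4.trans h1, h5, ?_⟩
    intro i hi
    rcases Nat.lt_succ_iff_lt_or_eq.1 hi with hlt | heq
    · exact freiAt_mono h4 (h3 i hlt)
    · have : i = ⟨j, by omega⟩ := Fin.ext heq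
      rw [this]
      exact h6

theorem pf_CL (hCL1 : T_CL1) : T_CL := by
  intro d δ hδ
  obtain ⟨c, hc, h⟩ := cl_aux hCL1 d d le_rfl δ hδ
  refine ⟨c, hc, ?_⟩
  intro q _ u S τ hu hS hs
  obtain ⟨S', h1, h2, h3⟩ := h q u S τ hu hS hs
  exact ⟨S', h1, h2, fun i => h3 i i.2⟩

end Pool.Agent.H74.GU
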